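import Pool.Agent.H12E.Core
import Pool.Agent.H12E.Layout
import Pool.Agent.H12E.LangETOL

/-! There is no hardest ETOL language. -/

namespace Pool.Agent.Results.MP_d9d02e_lc.NoHardestETOL

open Pool.Agent.H12E

/-- `L0` is a hardest ETOL language (in the sense of Greibach): every ETOL language `L` is the
inverse image of `L0` (or of `L0` with the empty word added, if `L` contains the empty word)
under a homomorphism `h`, given by the images `h a` of the letters. -/
def IsHardest {D0 : Type} (L0 : Set (List D0)) : Prop :=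
  IsETOL L0 ∧ ∀ (D : Type) (L : Set (List D)), IsETOL L → ∃ h : D → List D0,
    ([] ∉ L → L = {x | x.flatMap h ∈ L0}) ∧ ([] ∈ L → L = {x | x.flatMap h ∈ L0 ∪ {[]}})

/-- There is no hardest ETOL language. -/
theorem result : ¬ ∃ (D0 : Type) (L0 : Set (List D0)), IsHardest L0 := by
  rintro ⟨D0, L0, ⟨G, rfl⟩, hall⟩
  have hk : 2 ^ (Nat.card G.Sig * Nat.card G.Sig) <
      2 ^ (Nat.card G.Sig * Nat.card G.Sig) + 1 := Nat.lt_succ_self _
  generalize 2 ^ (Nat.card G.Sig * Nat.card G.Sig) + 1 = k at hk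
  have hk1 : 1 ≤ k := Nat.one_le_of_lt hk
  obtain ⟨h, hh, -⟩ := hall (Lt k) (Lk k) (LangE.isETOL_Lk k)
  have hnil : ([] : List (Lt k)) ∉ Lk k := by
    rintro ⟨g, hg, hs⟩
    cases hs
    exact hg rfl
  refine core (fun n0 C C' L J h1 h2 h3 h4 => exists_layout k n0 C C' L J hk1 h1 h2 h3 h4) G h hk ?_
  intro v
  have := hh hnil
  conv_lhs => rw [this]
  rfl

end Pool.Agent.Results.MP_d9d02e_lc.NoHardestETOL
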